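import Mathlib

/-!
Project SR, package PAR: the distribution relation.
-/

set_option autoImplicit false

namespace Pool.Agent.U606.SR
open Finset

lemma sumT (f₁ L r : ℕ) (hf : 0 < f₁) (hL : 0 < L) :
    ∑ i ∈ range L, ((1 / 2 : ℚ) - ((r + f₁ * i : ℕ) : ℚ) / ((L * f₁ : ℕ) : ℚ)) =
      1 / 2 - (r : ℚ) / f₁ := by
  have hf' : (f₁ : ℚ) ≠ 0 := by positivity
  have hL' : (L : ℚ) ≠ 0 := by positivity
  have h1 : ∀ i ∈ range L, (1 / 2 : ℚ) - ((r + f₁ * i : ℕ) : ℚ) / ((L * f₁ : ℕ) : ℚ) =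
      (1 / 2 - (r : ℚ) / (L * f₁)) - (i : ℚ) / L := by
    intro i _
    push_cast
    field_simp
    ring
  rw [sum_congr rfl h1, sum_sub_distrib, sum_const, card_range, nsmul_eq_mul, ← sum_div]
  have h2 : ∀ m : ℕ, (∑ i ∈ range m, (i : ℚ)) = m * (m - 1) / 2 := by
    intro m
    induction m with
    | zero => simp
    | succ m ih =>
      rw [sum_range_succ, ih]
      push_cast
      ring
  rw [h2]
  field_simp
  ring

lemma dist (l L' f₁ r r' : ℕ) (hl : l.Prime) (hlf : ¬ l ∣ f₁) (hL : 0 < L') (hf : 0 < f₁)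
    (hr' : r' < f₁) (h : l * r' % f₁ = r) :
    ∑ i ∈ (range (l * L')).filter (fun i => ¬ l ∣ r + f₁ * i),
        ((1 / 2 : ℚ) - ((r + f₁ * i : ℕ) : ℚ) / ((l * L' * f₁ : ℕ) : ℚ)) =
      (1 / 2 - (r : ℚ) / f₁) - (1 / 2 - (r' : ℚ) / f₁) := by
  have hl0 := hl.pos
  have h1 := sumT f₁ (l * L') r hf (Nat.mul_pos hl0 hL)
  rw [← sum_filter_add_sum_filter_not _ (fun i => l ∣ r + f₁ * i)] at h1
  have h2 := sumT f₁ L' r' hf hL
  set k0 := l * r' / f₁ with hk0
  have hk : r + f₁ * k0 = l * r' := by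
    have := Nat.mod_add_div (l * r') f₁
    rw [h] at this
    exact this
  have hk0l : k0 < l := by
    rw [hk0, Nat.div_lt_iff_lt_mul hf]
    exact Nat.mul_lt_mul_of_pos_left hr' hl0
  have hcop : Nat.Coprime l f₁ := (Nat.Prime.coprime_iff_not_dvd hl).2 hlf
  have h3 : ∑ i ∈ (range (l * L')).filter (fun i => l ∣ r + f₁ * i),
        ((1 / 2 : ℚ) - ((r + f₁ * i : ℕ) : ℚ) / ((l * L' * f₁ : ℕ) : ℚ)) =
      ∑ i ∈ range L', ((1 / 2 : ℚ) - ((r' + f₁ * i : ℕ) : ℚ) / ((L' * f₁ : ℕ) : ℚ)) := by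
    refine sum_nbij' (fun i => i / l) (fun i => k0 + l * i) ?_ ?_ ?_ ?_ ?_
    · intro i hi
      rw [mem_filter, mem_range] at hi
      rw [mem_range]
      exact Nat.div_lt_of_lt_mul hi.1
    · intro i hi
      rw [mem_range] at hi
      rw [mem_filter, mem_range]
      constructor
      · calc k0 + l * i < l + l * i := by omega
          _ = l * (i + 1) := by ring
          _ ≤ l * L' := Nat.mul_le_mul_left _ hi
      · refine ⟨r' + f₁ * i, ?_⟩
        calc r + f₁ * (k0 + l * i) = (r + f₁ * k0) + l * (f₁ * i) := by ring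
          _ = l * (r' + f₁ * i) := by rw [hk]; ring
    · intro i hi
      rw [mem_filter, mem_range] at hi
      have h4 : (l : ℤ) ∣ (f₁ : ℤ) * ((i : ℤ) - k0) := by
        obtain ⟨c, hc⟩ := hi.2
        refine ⟨(c : ℤ) - r', ?_⟩
        have e1 : ((r : ℤ) + f₁ * i) = l * c := by exact_mod_cast hc
        have e2 : ((r : ℤ) + f₁ * k0) = l * r' := by exact_mod_cast hk
        linear_combination e1 - e2
      have h5 : (l : ℤ) ∣ (i : ℤ) - k0 := by
        have : IsCoprime (l : ℤ) (f₁ : ℤ) := Nat.isCoprime_iff_coprime.2 hcop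
        exact this.dvd_of_dvd_mul_left h4
      have h6 : i % l = k0 := by
        have h7 : (k0 : ℤ) % l = (i : ℤ) % l := Int.ModEq.eq ((Int.modEq_iff_dvd).2 h5)
        have h8 : (k0 % l : ℕ) = i % l := by exact_mod_cast h7
        rw [← h8]
        exact Nat.mod_eq_of_lt hk0l
      show k0 + l * (i / l) = i
      rw [← h6]
      exact Nat.mod_add_div i l
    · intro i hi
      show (k0 + l * i) / l = i
      rw [Nat.add_mul_div_left _ _ hl0, Nat.div_eq_of_lt hk0l, zero_add]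
    · intro i hi
      rw [mem_filter, mem_range] at hi
      have h4 : (l : ℤ) ∣ (f₁ : ℤ) * ((i : ℤ) - k0) := by
        obtain ⟨c, hc⟩ := hi.2
        refine ⟨(c : ℤ) - r', ?_⟩
        have e1 : ((r : ℤ) + f₁ * i) = l * c := by exact_mod_cast hc
        have e2 : ((r : ℤ) + f₁ * k0) = l * r' := by exact_mod_cast hk
        linear_combination e1 - e2
      have h5 : (l : ℤ) ∣ (i : ℤ) - k0 := by
        have : IsCoprime (l : ℤ) (f₁ : ℤ) := Nat.isCoprime_iff_coprime.2 hcop
        exact this.dvd_of_dvd_mul_left h4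
      have h6 : i % l = k0 := by
        have h7 : (k0 : ℤ) % l = (i : ℤ) % l := Int.ModEq.eq ((Int.modEq_iff_dvd).2 h5)
        have h8 : (k0 % l : ℕ) = i % l := by exact_mod_cast h7
        rw [← h8]
        exact Nat.mod_eq_of_lt hk0l
      have h9 : i = k0 + l * (i / l) := by
        rw [← h6]
        exact (Nat.mod_add_div i l).symm
      have h10 : r + f₁ * i = l * (r' + f₁ * (i / l)) := by
        calc r + f₁ * i = r + f₁ * (k0 + l * (i / l)) := by rw [← h9]
          _ = (r + f₁ * k0) + l * (f₁ * (i / l)) := by ring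
          _ = l * (r' + f₁ * (i / l)) := by rw [hk]; ring
      rw [h10]
      have e1 : (l : ℚ) ≠ 0 := by positivity
      have e2 : (L' : ℚ) ≠ 0 := by positivity
      have e3 : (f₁ : ℚ) ≠ 0 := by positivity
      push_cast
      congr 1
      rw [mul_assoc, mul_div_mul_left _ _ e1]
  rw [h3, h2] at h1
  linarith

lemma units_sum (f f₁ l L' : ℕ) [NeZero f] [NeZero f₁] (hl : l.Prime)
    (hL : ∀ m : ℕ, ¬ l ∣ m → m.Coprime L') (hf : f = l * L' * f₁)
    (hd : f₁ ∣ f) (w : (ZMod f₁)ˣ) :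
    ∑ u : (ZMod f)ˣ, (if ZMod.unitsMap hd u = w then
        ((1 / 2 : ℚ) - ((u : ZMod f).val : ℚ) / f) else 0) =
      ∑ i ∈ (range (l * L')).filter (fun i => ¬ l ∣ (w : ZMod f₁).val + f₁ * i),
        ((1 / 2 : ℚ) - (((w : ZMod f₁).val + f₁ * i : ℕ) : ℚ) / (f : ℚ)) := by
  have hf₁ : 0 < f₁ := Nat.pos_of_ne_zero (NeZero.ne f₁)
  have key : ∀ u : (ZMod f)ˣ, ZMod.unitsMap hd u = w ↔ (u : ZMod f).val % f₁ = (w : ZMod f₁).val := by
    intro u
    constructor
    · intro h
      rw [← h, ZMod.unitsMap_val, ZMod.cast_eq_val, ZMod.val_natCast]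
    · intro h
      apply Units.ext
      rw [ZMod.unitsMap_val, ZMod.cast_eq_val]
      apply ZMod.val_injective
      rw [ZMod.val_natCast, h]
  have key2 : ∀ u : (ZMod f)ˣ, ZMod.unitsMap hd u = w →
      (w : ZMod f₁).val + f₁ * ((u : ZMod f).val / f₁) = (u : ZMod f).val := by
    intro u hu
    rw [← (key u).1 hu]
    exact Nat.mod_add_div _ _
  rw [← sum_filter]
  refine sum_bij (fun u _ => (u : ZMod f).val / f₁) ?_ ?_ ?_ ?_
  · intro u hu
    rw [mem_filter] at hu
    rw [mem_filter, mem_range]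
    constructor
    · rw [Nat.div_lt_iff_lt_mul hf₁, ← hf]
      exact ZMod.val_lt _
    · rw [key2 u hu.2]
      intro h
      have h1 : Nat.Coprime (u : ZMod f).val f := ZMod.val_coe_unit_coprime u
      have h2 : l ∣ f := ⟨L' * f₁, by rw [hf]; ring⟩
      have h3 : l ∣ 1 := by
        rw [← Nat.Coprime.gcd_eq_one h1]
        exact Nat.dvd_gcd h h2
      exact hl.one_lt.ne' (Nat.dvd_one.1 h3)
  · intro u hu v hv h
    rw [mem_filter] at hu hv
    have h1 := key2 u hu.2
    have h2 := key2 v hv.2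
    rw [h, h2] at h1
    exact (Units.ext (ZMod.val_injective _ h1)).symm
  · intro i hi
    rw [mem_filter, mem_range] at hi
    set m := (w : ZMod f₁).val + f₁ * i with hm
    have hw : (w : ZMod f₁).val < f₁ := ZMod.val_lt _
    have hmf : m < f := by
      calc m < f₁ + f₁ * i := by rw [hm]; exact Nat.add_lt_add_right hw _
        _ = f₁ * (i + 1) := by ring
        _ ≤ f₁ * (l * L') := Nat.mul_le_mul_left _ hi.1
        _ = f := by rw [hf]; ring
    have hc : m.Coprime f := by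
      rw [hf]
      refine Nat.Coprime.mul_right (Nat.Coprime.mul_right ?_ (hL m hi.2)) ?_
      · exact ((Nat.Prime.coprime_iff_not_dvd hl).2 hi.2).symm
      · rw [hm, Nat.coprime_add_mul_left_left]
        exact ZMod.val_coe_unit_coprime w
    have hval : ((ZMod.unitOfCoprime m hc : (ZMod f)ˣ) : ZMod f).val = m := by
      rw [ZMod.coe_unitOfCoprime, ZMod.val_natCast, Nat.mod_eq_of_lt hmf]
    refine ⟨ZMod.unitOfCoprime m hc, ?_, ?_⟩
    · rw [mem_filter]
      refine ⟨mem_univ _, (key _).2 ?_⟩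
      rw [hval, hm, Nat.add_mul_mod_self_left, Nat.mod_eq_of_lt hw]
    · rw [hval, hm, Nat.add_mul_div_left _ _ hf₁, Nat.div_eq_of_lt hw, zero_add]
  · intro u hu
    rw [mem_filter] at hu
    rw [key2 u hu.2]

end Pool.Agent.U606.SR
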